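import Pool.Agent.H47.MED.Stmts

/-!
# MED, row RTN: numbers with the same power modulo `M`
-/

set_option autoImplicit false

namespace Pool.MED

open Finset

theorem rtn_thm (hR : S_RTS) : S_RTN := by
  classical
  intro M e N Z hM he hZ hp
  rcases Z.eq_empty_or_nonempty with h0 | ⟨x0, hx0⟩
  · rw [h0, Finset.card_empty]
    exact Nat.zero_le _
  have hu : ∀ x ∈ Z, IsUnit ((x : ℕ) : ZMod M) := fun x hx =>
    (ZMod.isUnit_iff_coprime x M).mpr (hZ x hx).1
  obtain ⟨u, hu0⟩ := hu x0 hx0
  -- the ratio modulo `M`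
  let f : ℕ → ZMod M := fun x => (x : ZMod M) * ((u⁻¹ : (ZMod M)ˣ) : ZMod M)
  have hf : ∀ x x' : ℕ, f x = f x' → (x : ZMod M) = (x' : ZMod M) := by
    intro x x' h
    exact (Units.mul_left_inj u⁻¹).mp h
  have him : (Z.image f).card ≤ (2 * e) ^ M.primeFactors.card := by
    refine hR M e _ hM he ?_
    intro y hy
    obtain ⟨x, hx, rfl⟩ := Finset.mem_image.mp hy
    have h1 : ((x ^ e : ℕ) : ZMod M) = ((x0 ^ e : ℕ) : ZMod M) :=
      (ZMod.natCast_eq_natCast_iff _ _ M).mpr (hp x hx x0 hx0)
    push_cast at h1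
    show ((x : ZMod M) * ((u⁻¹ : (ZMod M)ˣ) : ZMod M)) ^ e = 1
    rw [mul_pow, h1, ← hu0, ← mul_pow, Units.mul_inv, one_pow]
  have hfib : ∀ y ∈ Z.image f, (Z.filter fun x => f x = y).card ≤ N / M + 1 := by
    intro y _
    have h1 : (Z.filter fun x => f x = y).card ≤ (range (N / M + 1)).card := by
      refine Finset.card_le_card_of_injOn (fun x => x / M) ?_ ?_
      · intro x hx
        have hx' := (Finset.mem_filter.mp (Finset.mem_coe.mp hx)).1
        have h2 : x / M ≤ N / M := Nat.div_le_div_right (hZ x hx').2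
        exact Finset.mem_coe.mpr (Finset.mem_range.mpr (Nat.lt_succ_of_le h2))
      · intro x hx x' hx' h2
        have h3 := (Finset.mem_filter.mp (Finset.mem_coe.mp hx)).2
        have h4 := (Finset.mem_filter.mp (Finset.mem_coe.mp hx')).2
        have h5 : (x : ZMod M) = (x' : ZMod M) := hf x x' (h3.trans h4.symm)
        have h6 : x % M = x' % M := (ZMod.natCast_eq_natCast_iff' _ _ M).mp h5
        have h7 : x / M = x' / M := h2
        calc x = M * (x / M) + x % M := (Nat.div_add_mod x M).symm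
          _ = M * (x' / M) + x' % M := by rw [h6, h7]
          _ = x' := Nat.div_add_mod x' M
    rwa [Finset.card_range] at h1
  have h := Finset.card_le_mul_card_image Z (N / M + 1) hfib
  calc Z.card ≤ (N / M + 1) * (Z.image f).card := h
    _ ≤ (N / M + 1) * (2 * e) ^ M.primeFactors.card := Nat.mul_le_mul_left _ him
    _ = (2 * e) ^ M.primeFactors.card * (N / M + 1) := Nat.mul_comm _ _

end Pool.MED
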